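import Mathlib
import Pool.Agent.U958.HC.Four

set_option autoImplicit false

/-!
# MP_eba1ef_gt: symmetric bodies need at most `7 d 2^d` translates; bodies with a large symmetric part

Let `K` be a convex body in `ℝ^d` and `c` a point such that the part of `K` which is symmetric
about `c` has at least the share `σ` of the volume of `K`. Then `K` is covered by at most
`d 2^d min (7/σ, 11 + 3 log (1 + log (1/σ)))` translates of its interior. For centrally symmetric
bodies (`σ = 1`) this is `7 d 2^d`; the bound of Rogers (and Rogers-Zong) is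
`2^d (d log d + d log log d + 5 d)`. For general bodies the factor `log d` of the bounds known so far
is replaced by the double logarithm of `1/σ`; as `σ ≥ 2^(-d)` for a suitable `c`, the bound is never
worse than `O(2^d d log d)`.

The proof. Let `S_y` be the symmetric part of `K` around `y`, moved to the origin, and
`F(y) = ∫ exp (⟨y,φ⟩ - h_K(φ)) dφ` (the centre `c` is the origin).
(1) `F(y) |S_y| ≥ 2^d`: this is the symmetric Mahler inequality for the symmetric hull of the polar
of `K - y`, with the Rogers-Shephard bound for this hull.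
(2) The gradient `G` of `log F` is injective, its derivative is the covariance matrix of the density
`exp (⟨y,φ⟩ - h_K(φ)) / F(y)`, whose determinant is at least `(e/2π)^d F(y)²` (comparison with a
Gaussian), and `G` maps `(1-δ)K` into `(d/δ) K°`. The change of variables formula and Santaló's
inequality bound the integral of `F²` over `(1-δ) K`.
(3) So a `δ`-separated net of `K` has at most `(C T)^{2d}` points `a` for which `S_{(1-δ)a}` is
smaller than `(T δ)^d |S_0|`: few points of the net are corners (`δ` is about `1/d`).
(4) A random translate `t + (1-η) K` with `t` uniform in `(1-η) K` contains the point `a` with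
probability at least `c σ 2^{-d} (1+τ_a)^d`, `τ_a^d = |S_{(1-δ)a}|/|S_0|`, by Brunn-Minkowski. So
`7 d 2^d / σ` random translates contain all points of the net; and `O(d 2^d)` random translates leave
at most `(C (1 + log (1/σ)))^{2d}` points of the net, which are covered by the greedy procedure of
the starting files (every finite subset of `K` has the share about `2^{-d}` in some translate).
-/

namespace Pool.Agent.Results.MP_eba1ef_gt.AlmostSymmetricBodies

open MeasureTheory

/-- **Main theorem.** A convex body in `ℝ^d` whose part symmetric about some point has at least the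
share `σ` of its volume is covered by at most `d 2^d min (7/σ, 11 + 3 log (1 + log (1/σ)))`
translates of its interior; for centrally symmetric bodies `σ = 1` and the bound is `7 d 2^d`. -/
theorem result (d : ℕ) (hd : 1 ≤ d) (K : Set (EuclideanSpace ℝ (Fin d)))
    (hK : Convex ℝ K) (hKc : IsCompact K) (hKi : (interior K).Nonempty)
    (c : EuclideanSpace ℝ (Fin d)) (σ : ℝ) (hσ : 0 < σ)
    (hc : σ * volume.real K ≤ volume.real (K ∩ {x | (2 : ℝ) • c - x ∈ K})) :
    ∃ T : Finset (EuclideanSpace ℝ (Fin d)),
      K ⊆ ⋃ t ∈ T, (fun x => t + x) '' interior K ∧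
      (T.card : ℝ) ≤ d * 2 ^ d * min (7 / σ) (11 + 3 * Real.log (1 + Real.log (1 / σ))) := by
  have hv : 0 < volume.real K := Pool.Agent.U958.HC.vr_pos_of_int hKc hKi
  have hs : 0 < volume.real (K ∩ {x | (2 : ℝ) • c - x ∈ K}) :=
    lt_of_lt_of_le (mul_pos hσ hv) hc
  have hle : volume.real (K ∩ {x | (2 : ℝ) • c - x ∈ K}) ≤ volume.real K :=
    measureReal_mono Set.inter_subset_left hKc.measure_lt_top.ne
  have hratio : volume.real K / volume.real (K ∩ {x | (2 : ℝ) • c - x ∈ K}) ≤ 1 / σ := by
    rw [div_le_div_iff₀ hs hσ]
    linarith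
  have hone : 1 ≤ volume.real K / volume.real (K ∩ {x | (2 : ℝ) • c - x ∈ K}) :=
    (one_le_div hs).2 hle
  rcases min_cases (7 / σ) (11 + 3 * Real.log (1 + Real.log (1 / σ))) with ⟨h, -⟩ | ⟨h, -⟩
  · obtain ⟨T, hT, hcard⟩ := Pool.Agent.U958.HC.cover_ratio hd hK hKc hs
    refine ⟨T, hT, hcard.trans ?_⟩
    rw [h]
    calc 7 * (d : ℝ) * 2 ^ d * (volume.real K / volume.real (K ∩ {x | (2 : ℝ) • c - x ∈ K}))
        ≤ 7 * (d : ℝ) * 2 ^ d * (1 / σ) := by gcongr
      _ = _ := by ring
  · obtain ⟨T, hT, hcard⟩ := Pool.Agent.U958.HC.cover_loglog hd hK hKc hKi hs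
    refine ⟨T, hT, hcard.trans ?_⟩
    rw [h]
    have h1 : 0 ≤ Real.log (volume.real K / volume.real (K ∩ {x | (2 : ℝ) • c - x ∈ K})) :=
      Real.log_nonneg hone
    have h2 : Real.log (volume.real K / volume.real (K ∩ {x | (2 : ℝ) • c - x ∈ K})) ≤
        Real.log (1 / σ) := Real.log_le_log (by linarith) hratio
    have h3 : Real.log (1 +
        Real.log (volume.real K / volume.real (K ∩ {x | (2 : ℝ) • c - x ∈ K}))) ≤
        Real.log (1 + Real.log (1 / σ)) := Real.log_le_log (by linarith) (by linarith)
    refine mul_le_mul_of_nonneg_left ?_ (by positivity)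
    linarith

end Pool.Agent.Results.MP_eba1ef_gt.AlmostSymmetricBodies
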