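import Pool.Agent.U194.Block.Main
import Pool.Agent.H765R3.Had.Inv

set_option autoImplicit false

/-!
# MP_eba1ef_gt: the largest coefficient of `∏ (1 + N_j t)` as a bound for products with structure

Let `K` be a convex body in `V_1 × … × V_r` which is compatible with some structure of the single
factors: it is invariant under groups of isometries of the factors, or it depends only on gauges
`g_j(x_j)` of convex bodies `C_j ⊆ V_j`, or, most generally, it contains with `x` all points
`(x_1, …, q, …, x_r)`, `q ∈ Q_j(x_j)`, with a lower semicontinuous family of convex sets `Q_j(x_j)`.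
Let `N_j` directions in `V_j` be sufficient to go from every point `x ≠ 0` to the interior of
`Q_j(x)` (for a group, of the convex hull of the orbit; for the gauge of `C_j`, `N_j = c(C_j)`).
We prove that `c(K)` is at most the largest coefficient of the polynomial `∏ (1 + N_j t)`.

This improves the bound `∏ (1 + N_j) - 1` (the sum of all the coefficients but one) of the starting
result `UnconditionalSums` for sums of convex bodies, and contains that of `KraftSums`: if
`∑ 1 / N_j ≤ 1` the largest coefficient is the last one, `∏ N_j`. If all `N_j ≤ N` the bound is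
`max_m (r choose m) N^m`, of the order `(N + 1)^r / √r`. Applications:

* Bodies in `ℂ^r` invariant under the multiplication of the `j`-th coordinate by the `k_j`-th roots
  of unity (for every `j` separately): one may take the `N_j`-th roots of unity if
  `1 / k_j + 1 / N_j < 1 / 2`. For `k_j ≥ 7` we have `N_j = 3` and
  `c(K) ≤ max_m (r choose m) 3^m < 4^r = 2^(dim K)`, for all `r`. (The bound `3 * 4^(r-1)` is in the
  starting result `MP_80156a_co.BlockSymmetricBodies`.) If `k_j ≥ 5` and `r ≤ 4` then `c(K) ≤ 4^r`.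
* Bodies in `ℝ^n` symmetric about the coordinate hyperplanes, and invariant under the permutations
  of the coordinates inside blocks of sizes `d_j`: `N_j = 2^(d_j)`. (For `∑ 2^(-d_j) ≤ 1` this is
  contained in the starting result `MP_5e7226_co.BlockSymmetric`.)

The proof. (a) By compactness there are `κ, s₀ > 0` such that for every `x ∈ V_j` which is not small
`x + s w` belongs to `(1 - κ s) Q_j(x)` for some `w` and all `s ≤ s₀`. And `K` contains the products
of the sets `Q_j(x_j)`. (b) So `x` is illuminated by the direction `(δ^(b_j) w_j)` if `w_j` is the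
right direction for all `j` in the set `S` of the coordinates where `x_j` is not small, and `b_j`
is smaller on `S` than outside of `S`. (c) Consider the poset of all partial choices (a set `S` and
one of the `N_j` directions for all `j ∈ S`). A chain in this poset gives one direction which
illuminates all points with a partial choice in the chain. (d) The poset is the union of as many
chains as its largest level has elements. The levels have `e_m(N_1, …, N_r)` elements; they are
unimodal, and there is an explicit flow between neighbouring levels,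
`∑_U ∏_(i ∈ U) N_i / (1 + |U \ S|)`, the sum over all `m`-subsets `U` not containing `j`, on the
edges from `S` to `S ∪ {j}`, which gives the matchings by Hall's theorem. (e) For the signed
permutations of `d` coordinates the `2^d` directions are the sign vectors with one large coordinate,
the last one of the first run of equal signs.
-/

namespace Pool.Agent.Results.MP_eba1ef_gt.BlockSymmetricBodies

open Pool.Agent.U194.Block

/-- `Covered N K` means that `K` is covered by at most `N` translates of its interior, i.e.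
`c(K) ≤ N`. -/
def Covered {V : Type*} [TopologicalSpace V] [Add V] (N : ℕ) (K : Set V) : Prop :=
  ∃ T : Finset V, T.card ≤ N ∧ K ⊆ ⋃ t ∈ T, (fun x => t + x) '' interior K

/-- `K` is a convex body. -/
def IsBody {V : Type*} [AddCommGroup V] [Module ℝ V] [TopologicalSpace V] (K : Set V) : Prop :=
  Convex ℝ K ∧ IsCompact K ∧ (interior K).Nonempty

/-- The directions `w 0, …, w (N - 1)` illuminate all orbits of the group `G` of isometries: from
every point `x ≠ 0` one of them leads into the interior of the convex hull of the orbit of `x`. -/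
def IlluminatesOrbits {d N : ℕ}
    (G : Subgroup (EuclideanSpace ℝ (Fin d) ≃ₗᵢ[ℝ] EuclideanSpace ℝ (Fin d)))
    (w : Fin N → EuclideanSpace ℝ (Fin d)) : Prop :=
  ∀ x, x ≠ 0 → ∃ n, ∃ ε : ℝ, 0 < ε ∧
    x + ε • w n ∈ interior (convexHull ℝ {y | ∃ g ∈ G, g x = y})

/-- The coefficient of `t^m` in the polynomial `∏ (1 + N_j t)`. -/
def coefficient {r : ℕ} (N : Fin r → ℕ) (m : ℕ) : ℕ :=
  ∑ S ∈ Finset.powersetCard m Finset.univ, ∏ j ∈ S, N j

/-- `Q` is a lower semicontinuous family of convex sets, `x ∈ Q x`, and for `x ≠ 0` the origin is an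
interior point of `Q x` and one of the directions `w n` leads from `x` into the interior of
`Q x`. -/
structure IsRule {d N : ℕ} (Q : EuclideanSpace ℝ (Fin d) → Set (EuclideanSpace ℝ (Fin d)))
    (w : Fin N → EuclideanSpace ℝ (Fin d)) : Prop where
  convex : ∀ x, Convex ℝ (Q x)
  self : ∀ x, x ∈ Q x
  zero : ∀ x, x ≠ 0 → 0 ∈ interior (Q x)
  lsc : ∀ x, x ≠ 0 → ∀ y ∈ interior (Q x), ∀ᶠ p in nhds (x, y), p.2 ∈ Q p.1
  illuminated : ∀ x, x ≠ 0 → ∃ n, ∃ ε : ℝ, 0 < ε ∧ x + ε • w n ∈ interior (Q x)

/-- `c(K)` is at most some coefficient of `∏ (1 + N_j t)`. -/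
def AtMostSomeCoefficient {V : Type*} [TopologicalSpace V] [Add V] {r : ℕ} (N : Fin r → ℕ)
    (K : Set V) : Prop :=
  ∃ m ≤ r, Covered (coefficient N m) K

/-- `c(K)` is at most some coefficient of `∏ (1 + N_j t)`, and at most `∏ N_j` if
`∑ 1 / N_j ≤ 1`. -/
def Bound {V : Type*} [TopologicalSpace V] [Add V] {r : ℕ} (N : Fin r → ℕ) (K : Set V) : Prop :=
  AtMostSomeCoefficient N K ∧ (∑ j, (1 : ℝ) / N j ≤ 1 → Covered (∏ j, N j) K)

/-- (1) Let the families `Q j` of convex sets in `ℝ^(d j)` be illuminated by `N j` directions, and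
let `K ⊆ ∏ ℝ^(d j)` be a convex body which contains with `x` all points which we obtain from `x` if
we replace `x j` by an element of `Q j (x j)`. Then `c(K)` is at most some coefficient of
`∏ (1 + N_j t)`, and at most `∏ N j` if `∑ 1 / N j ≤ 1`. -/
def Rules : Prop :=
  ∀ (r : ℕ) (d N : Fin r → ℕ)
    (Q : ∀ j, EuclideanSpace ℝ (Fin (d j)) → Set (EuclideanSpace ℝ (Fin (d j))))
    (w : ∀ j, Fin (N j) → EuclideanSpace ℝ (Fin (d j))),
    (∀ j, 0 < d j) → (∀ j, IsRule (Q j) (w j)) →
    ∀ K : Set (∀ j, EuclideanSpace ℝ (Fin (d j))), IsBody K →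
    (∀ j, ∀ x ∈ K, ∀ q ∈ Q j (x j), Function.update x j q ∈ K) → Bound N K

/-- (2) The same is true for convex bodies invariant under groups `G j` of isometries of the
`j`-th factor, whose orbits are illuminated by `N j` directions. -/
def Groups : Prop :=
  ∀ (r : ℕ) (d N : Fin r → ℕ)
    (G : ∀ j, Subgroup (EuclideanSpace ℝ (Fin (d j)) ≃ₗᵢ[ℝ] EuclideanSpace ℝ (Fin (d j))))
    (w : ∀ j, Fin (N j) → EuclideanSpace ℝ (Fin (d j))),
    (∀ j, 0 < d j) → (∀ j, IlluminatesOrbits (G j) (w j)) →
    ∀ K : Set (∀ j, EuclideanSpace ℝ (Fin (d j))), IsBody K →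
    (∀ j, ∀ g ∈ G j, ∀ x ∈ K, Function.update x j (g (x j)) ∈ K) → Bound N K

/-- (3) Let `C j ⊆ ℝ^(d j)` be convex bodies with `0` in the interior and `c(C j) ≤ N j`, and let
`K` be a convex body which contains with `x` all `y` with the same gauges `g_j (y_j) = g_j (x_j)`
for all `j`. Then `c(K)` is at most some coefficient of `∏ (1 + N_j t)`. -/
def Gauges : Prop :=
  ∀ (r : ℕ) (d N : Fin r → ℕ) (C : ∀ j, Set (EuclideanSpace ℝ (Fin (d j)))),
    (∀ j, 0 < d j) → (∀ j, Convex ℝ (C j) ∧ IsCompact (C j) ∧ 0 ∈ interior (C j)) →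
    (∀ j, Covered (N j) (C j)) → ∀ K : Set (∀ j, EuclideanSpace ℝ (Fin (d j))), IsBody K →
    (∀ x ∈ K, ∀ y : ∀ j, EuclideanSpace ℝ (Fin (d j)),
      (∀ j, gauge (C j) (y j) = gauge (C j) (x j)) → y ∈ K) → AtMostSomeCoefficient N K

/-- (4) Let `K ⊆ ℂ^r` be a convex body, invariant under the multiplication of the `j`-th coordinate
by `exp (2 π i / k j)`, for all `j`. (a) If `1 / k j + 1 / N j < 1 / 2` then `c(K)` is at most some
coefficient of `∏ (1 + N_j t)`, and at most `∏ N j` if `∑ 1 / N j ≤ 1`. (b) If `k j ≥ 7` and `r ≥ 1`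
then `c(K) ≤ (r choose m) 3^m < 2^(2r)` for some `m`. (c) If `k j ≥ 5` and `r ≤ 4` then
`c(K) ≤ 2^(2r)`. -/
def RootsOfUnity : Prop :=
  ∀ (r : ℕ) (k : Fin r → ℕ) (K : Set (Fin r → ℂ)), (∀ j, 0 < k j) → IsBody K →
    (∀ j, ∀ x ∈ K,
      Function.update x j (Complex.exp (2 * Real.pi * Complex.I / k j) * x j) ∈ K) →
    (∀ N : Fin r → ℕ, (∀ j, 0 < N j) → (∀ j, (1 : ℝ) / k j + 1 / N j < 1 / 2) → Bound N K) ∧
    ((∀ j, 7 ≤ k j) → 0 < r →
      ∃ m ≤ r, Covered (r.choose m * 3 ^ m) K ∧ r.choose m * 3 ^ m < 2 ^ (2 * r)) ∧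
    ((∀ j, 5 ≤ k j) → r ≤ 4 → Covered (2 ^ (2 * r)) K)

/-- (5) Let `K ⊆ ℝ^n` be a convex body, symmetric about the coordinate hyperplanes and invariant
under the permutations of the coordinates which preserve a colouring `c` with `k` colours (all of
them used). Then `c(K)` is at most some coefficient of `∏ (1 + 2^(d_j) t)`, where `d_j` is the
number of coordinates of colour `j`. -/
def Permutations : Prop :=
  ∀ (n k : ℕ) (c : Fin n → Fin k) (K : Set (EuclideanSpace ℝ (Fin n))),
    Function.Surjective c → IsBody K →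
    (∀ x ∈ K, ∀ y : EuclideanSpace ℝ (Fin n), (∀ i, |y i| = |x i|) → y ∈ K) →
    (∀ σ : Equiv.Perm (Fin n), (∀ i, c (σ i) = c i) → ∀ x ∈ K,
      (WithLp.toLp 2 (fun i => x (σ i)) : EuclideanSpace ℝ (Fin n)) ∈ K) →
    AtMostSomeCoefficient (fun j => 2 ^ (Finset.univ.filter fun i => c i = j).card) K

/-- **Main theorem.** -/
theorem result : Rules ∧ Groups ∧ Gauges ∧ RootsOfUnity ∧ Permutations := by
  refine ⟨?_, ?_, ?_, ?_, ?_⟩
  · intro r d N Q w hd hw K hK hinv
    have hnt : ∀ j, Nontrivial (EuclideanSpace ℝ (Fin (d j))) := fun j => by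
      have : Nonempty (Fin (d j)) := ⟨⟨0, hd j⟩⟩
      infer_instance
    have hN : ∀ j, 0 < N j := by
      intro j
      obtain ⟨v, hv⟩ := exists_ne (0 : EuclideanSpace ℝ (Fin (d j)))
      obtain ⟨n, -⟩ := (hw j).illuminated v hv
      exact n.pos
    obtain ⟨m, hm, T, hT1, hT2⟩ := cover_es
      (V := fun j : Fin r => EuclideanSpace ℝ (Fin (d j))) (Q := Q) (N := N) w
      (fun j => by
        classical
        refine ⟨Finset.univ.image (w j), by simp, ?_⟩
        refine ⟨(hw j).convex, (hw j).self, (hw j).zero, fun x hx y hy => (hw j).lsc x hx y hy, ?_⟩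
        intro x hx
        obtain ⟨n, ε, hε, hn⟩ := (hw j).illuminated x hx
        exact ⟨w j n, Finset.mem_image_of_mem _ (Finset.mem_univ n), ε, hε, hn⟩)
      hK.1 hK.2.1 hK.2.2 (fun x hx j q hq => hinv j x hx q hq)
    rw [Fintype.card_fin] at hm
    refine ⟨⟨m, hm, T, hT1, hT2⟩, fun hsum => ⟨T, ?_, hT2⟩⟩
    exact hT1.trans (kraft_le hN hsum (by rwa [Fintype.card_fin]))
  · intro r d N G w hd hw K hK hinv
    have hnt : ∀ j, Nontrivial (EuclideanSpace ℝ (Fin (d j))) := fun j => by
      have : Nonempty (Fin (d j)) := ⟨⟨0, hd j⟩⟩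
      infer_instance
    have hN : ∀ j, 0 < N j := by
      intro j
      obtain ⟨v, hv⟩ := exists_ne (0 : EuclideanSpace ℝ (Fin (d j)))
      obtain ⟨n, -⟩ := hw j v hv
      exact n.pos
    obtain ⟨m, hm, T, hT1, hT2⟩ := cover_maps
      (V := fun j : Fin r => EuclideanSpace ℝ (Fin (d j)))
      (G := fun j => maps (G j : Set (EuclideanSpace ℝ (Fin (d j)) ≃ₗᵢ[ℝ]
        EuclideanSpace ℝ (Fin (d j))))) (N := N) w
      (fun j => by
        classical
        refine ⟨Finset.univ.image (w j), by simp, good_of_group (G j).one_mem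
          (fun g hg h hh => (G j).mul_mem hg hh) fun x hx => ?_⟩
        obtain ⟨n, ε, hε, hn⟩ := hw j x hx
        exact ⟨w j n, Finset.mem_image_of_mem _ (Finset.mem_univ n), ε, hε, hn⟩)
      hK.1 hK.2.1 hK.2.2 (by
        rintro x hx j _ ⟨g, hg, rfl⟩
        exact hinv j g hg x hx)
    rw [Fintype.card_fin] at hm
    refine ⟨⟨m, hm, T, hT1, hT2⟩, fun hsum => ⟨T, ?_, hT2⟩⟩
    exact hT1.trans (kraft_le hN hsum (by rwa [Fintype.card_fin]))
  · intro r d N C hd hC hcov K hK hinv
    have hnt : ∀ j, Nontrivial (EuclideanSpace ℝ (Fin (d j))) := fun j => by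
      have : Nonempty (Fin (d j)) := ⟨⟨0, hd j⟩⟩
      infer_instance
    have hmono := Pool.Agent.H765R3.Had.mono_of_inv (F := ℝ) (K := {p | p.2 ∈ K})
      (fun j => (hC j).1) (fun j => (hC j).2.1) (fun j => (hC j).2.2)
      (hK.1.is_linear_preimage (LinearMap.snd ℝ ℝ _).isLinear)
      (fun x y y' hy hg => hinv y hy y' hg)
    choose T hT1 hT2 using hcov
    have hw : ∀ j, ∃ w : Fin (N j) → EuclideanSpace ℝ (Fin (d j)),
        ∀ t ∈ T j, ∃ n, w n = -t := by
      intro j
      have hne : (T j).Nonempty := by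
        obtain ⟨t, ht, -⟩ := Set.mem_iUnion₂.1 (hT2 j (interior_subset (hC j).2.2))
        exact ⟨t, ht⟩
      obtain ⟨t₀, ht₀⟩ := hne
      refine ⟨fun n => if h : (n : ℕ) < (T j).card then -((T j).equivFin.symm ⟨n, h⟩ : _)
        else -t₀, fun t ht => ?_⟩
      have h1 : ((T j).equivFin ⟨t, ht⟩ : ℕ) < (T j).card := ((T j).equivFin ⟨t, ht⟩).2
      refine ⟨⟨(T j).equivFin ⟨t, ht⟩, h1.trans_le (hT1 j)⟩, ?_⟩
      simp only [h1, dif_pos]
      congr 1
      have : (⟨((T j).equivFin ⟨t, ht⟩ : ℕ), h1⟩ : Fin (T j).card) = (T j).equivFin ⟨t, ht⟩ :=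
        Fin.ext rfl
      rw [this, Equiv.symm_apply_apply]
    choose w hw using hw
    obtain ⟨m, hm, S, hS1, hS2⟩ := cover_es
      (V := fun j : Fin r => EuclideanSpace ℝ (Fin (d j)))
      (Q := fun j x => {y | gauge (C j) y ≤ gauge (C j) x}) (N := N) w
      (fun j => by
        classical
        refine ⟨(T j).image fun t => -t, ?_, gauge_rule (hC j).1 (hC j).2.1 (hC j).2.2 (hT2 j)⟩
        intro v hv
        obtain ⟨t, ht, rfl⟩ := Finset.mem_image.1 (Finset.mem_coe.1 hv)
        obtain ⟨n, hn⟩ := hw j t ht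
        exact ⟨n, hn⟩)
      hK.1 hK.2.1 hK.2.2 (by
        intro x hx j q hq
        refine hmono 0 x (Function.update x j q) hx fun i => ?_
        by_cases hi : i = j
        · subst hi
          rw [Function.update_self]
          exact hq
        · rw [Function.update_of_ne hi])
    rw [Fintype.card_fin] at hm
    exact ⟨m, hm, S, hS1, hS2⟩
  · intro r k K hk hK hinv
    have hmain : ∀ N : Fin r → ℕ, (∀ j, 0 < N j) → (∀ j, (1 : ℝ) / k j + 1 / N j < 1 / 2) →
        Bound N K := by
      intro N hN h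
      obtain ⟨m, hm, T, hT1, hT2⟩ := cover_rot hk hN h hK.1 hK.2.1 hK.2.2 hinv
      refine ⟨⟨m, hm, T, hT1, hT2⟩, fun hsum => ⟨T, ?_, hT2⟩⟩
      exact hT1.trans (kraft_le hN hsum (by rwa [Fintype.card_fin]))
    refine ⟨hmain, ?_, ?_⟩
    · intro hk7 hr
      obtain ⟨⟨m, hm, T, hT1, hT2⟩, -⟩ := hmain (fun _ => 3) (fun _ => by norm_num) (by
        intro j
        have h7 : (7 : ℝ) ≤ k j := by exact_mod_cast hk7 j
        have h8 : (1 : ℝ) / k j ≤ 1 / 7 := one_div_le_one_div_of_le (by norm_num) h7
        have h9 : ((3 : ℕ) : ℝ) = 3 := by norm_num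
        rw [h9]
        linarith)
      have hcoef : coefficient (fun _ : Fin r => 3) m = r.choose m * 3 ^ m := by
        rw [coefficient, Finset.sum_congr rfl (g := fun _ => 3 ^ m), Finset.sum_const,
          Finset.card_powersetCard, Finset.card_univ, Fintype.card_fin, smul_eq_mul]
        intro S hS
        rw [Finset.prod_const, (Finset.mem_powersetCard.1 hS).2]
      refine ⟨m, hm, ⟨T, ?_, hT2⟩, ?_⟩
      · rwa [hcoef] at hT1
      · have h1 : (2 : ℕ) ^ (2 * r) = ∑ i ∈ Finset.range (r + 1), 3 ^ i * 1 ^ (r - i) * r.choose i := by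
          have h0 := add_pow (3 : ℕ) 1 r
          simp only [Nat.cast_id] at h0
          rw [← h0, pow_mul]
          norm_num
        rw [h1]
        obtain ⟨i, hi, him⟩ : ∃ i ∈ Finset.range (r + 1), i ≠ m := by
          by_cases h0 : m = 0
          · exact ⟨r, Finset.mem_range.2 (by omega), by omega⟩
          · exact ⟨0, Finset.mem_range.2 (by omega), fun h => h0 h.symm⟩
        have h2 : ∑ j ∈ ({m, i} : Finset ℕ), 3 ^ j * 1 ^ (r - j) * r.choose j ≤
            ∑ i ∈ Finset.range (r + 1), 3 ^ i * 1 ^ (r - i) * r.choose i := by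
          refine Finset.sum_le_sum_of_subset ?_
          intro j hj
          rcases Finset.mem_insert.1 hj with h | h
          · rw [h]
            exact Finset.mem_range.2 (by omega)
          · rw [Finset.mem_singleton.1 h]
            exact hi
        refine lt_of_lt_of_le ?_ h2
        rw [Finset.sum_pair him.symm]
        have h3 : 0 < r.choose i := Nat.choose_pos (by
          have := Finset.mem_range.1 hi
          omega)
        have h4 : 0 < 3 ^ i * 1 ^ (r - i) * r.choose i := by positivity
        have h5 : r.choose m * 3 ^ m = 3 ^ m * 1 ^ (r - m) * r.choose m := by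
          rw [one_pow, mul_one, mul_comm]
        omega
    · intro hk5 hr
      obtain ⟨-, h⟩ := hmain (fun _ => 4) (fun _ => by norm_num) (by
        intro j
        have h7 : (5 : ℝ) ≤ k j := by exact_mod_cast hk5 j
        have h8 : (1 : ℝ) / k j ≤ 1 / 5 := one_div_le_one_div_of_le (by norm_num) h7
        have h9 : ((4 : ℕ) : ℝ) = 4 := by norm_num
        rw [h9]
        linarith)
      have h1 := h (by
        rw [Finset.sum_const, Finset.card_univ, Fintype.card_fin, nsmul_eq_mul]
        have : (r : ℝ) ≤ 4 := by exact_mod_cast hr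
        push_cast
        linarith)
      rw [Finset.prod_const, Finset.card_univ, Fintype.card_fin] at h1
      rw [pow_mul]
      exact h1
  · intro n k c K hc hK hsign hperm
    obtain ⟨m, hm, T, hT1, hT2⟩ := cover_perm c hc hK.1 hK.2.1 hK.2.2 hsign hperm
    exact ⟨m, hm, T, hT1, hT2⟩

end Pool.Agent.Results.MP_eba1ef_gt.BlockSymmetricBodies
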