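import Pool.Agent.U330.COV.QC

/-!
# MP_eba1ef_gt: convex bodies with a quotient of a subspace near a Euclidean space

Let `K` be a convex body in `ℝ^d = ℝ^k × ℝ^m`, symmetric or not, `M` its shadow (projection) in `ℝ^k`,
`U` a linear subspace of `ℝ^k` and `B ⊂ U` an ellipsoid centred at `0`, or the unit ball of a B-convex
norm: any `n` vectors of `B` have a signed sum in `ρ B`, `ρ < n`; e.g. the unit balls of subspaces and
quotients of `L_p`, `1 < p < ∞`. Suppose that

* some section of `M` parallel to `U` contains a translate of `B`, and `x - y ∈ s B` for any two points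
  `x, y` of `M` with `x - y ∈ U`;
* `k ≥ C log d` and the codimension of `U` in `ℝ^k` is at most `k / C`, `C = C(s)` or `C = C(n, ρ, s)`;
* `vol K ≥ exp(-k / C) vol_k(M) vol_m(F)` for each fibre `F` of `K` over `M`.

Then `K` is covered by less than `2^d` translates of its interior; more precisely by at most
`1 + 6 · 2^d exp(-k / 10^N) d log(2d² + 2d + 1)`, `N = N(s) ≥ 25 s²`. The third condition is automatic
if `m ≤ ε d`, `ε = ε(C)` (Rogers-Shephard). If `K` is symmetric then the first condition says that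
`B ⊂ M ∩ U ⊂ (s / 2) B`. So the covering conjecture holds, in high dimensions, for all symmetric convex
bodies `K` such that a quotient of a subspace of the normed space `(ℝ^d, K)`, of dimension at least
`(1 - ε) d`, is at distance at most `κ` from a Euclidean or a B-convex space, `ε = ε(κ)`; and for all
convex bodies, symmetric or not, with a shadow of codimension at most `ε d` at distance at most `κ`
from an ellipsoid (`U = ℝ^k`).

Proof. Let `A` be a finite subset of `K`. There is a cell: a subset `A'` of `A` of share at least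
`(1/5)^j`, `j = k - dim U`, the image of which in `ℝ^k / U` is in a translate of `1/4` of the image of
`M`. Let `X_1, X_2, ...` be independent random points of `A'`, `l < 1` close to `1`, `Q = (1 + l) K`,
`c = l / (1 + l)`, `Y_0` a random point of `Q` and `Y_{j+1} = X_{j+1} + c Y_j`, a point of `Q`. Let `θ` be
the largest share of `A'` in a translate of `l K` and `β = θ c^(-d)`. The function `z ↦ |A' ∩ (z - l K)|`
has the squared `L²` norm at most `θ |A'|² |l K|`: the translates of `l K` enter, not those of `- l K`. By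
iteration `P(Y_N ∈ S) ≤ β (|S| / |Q|)^(2^(-N))`. The shadow of `X_i` is the sum of `1/4` of a point of `M` and
of a random vector the differences of which are in `(5/4) s B`. If the Rademacher averages of `N` vectors
of `B` are at most `N / (5 s)`, then with probability at least `1/2` the shadow of `Y_N` is in a
translate of `(1 + l - N c^(N-1) / 4) M`. By the thickness the part `S` of `Q` over this set has volume
at most `exp(-c_N k) |Q|`. So `β ≥ exp(3 k / 10^N) / 2`. The greedy covering procedure (starting file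
`H815R2.HadCover`) gives the bound. Small Rademacher averages follow from the condition on signed
sums by submultiplicativity (Giesy, James, Pisier).
-/

set_option autoImplicit false

noncomputable section

namespace Pool.Agent.Results.MP_eba1ef_gt.QuotientsOfSubspaces

open MeasureTheory

/-- the space `ℝ^n` -/
abbrev E (n : ℕ) : Type := EuclideanSpace ℝ (Fin n)

/-- `K` is a convex body -/
def IsBody {k m : ℕ} (K : Set (E k × E m)) : Prop :=
  Convex ℝ K ∧ IsCompact K ∧ (interior K).Nonempty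

/-- `c(K) ≤ b`: `K` is covered by at most `b` translates of its interior -/
def CovLE {k m : ℕ} (K : Set (E k × E m)) (b : ℝ) : Prop :=
  ∃ T : Finset (E k × E m), (T.card : ℝ) ≤ b ∧ K ⊆ ⋃ t ∈ T, (fun x => t + x) '' interior K

/-- the shadow (projection) of `K` in `ℝ^k` -/
def shadow {k m : ℕ} (K : Set (E k × E m)) : Set (E k) :=
  Prod.fst '' K

/-- the fibre of `K` over the point `v` of `ℝ^k` -/
def fibre {k m : ℕ} (K : Set (E k × E m)) (v : E k) : Set (E m) :=
  {w | (v, w) ∈ K}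

/-- `vol K ≥ δ vol_k(shadow) vol_m(fibre)` for all fibres -/
def Thick {k m : ℕ} (δ : ℝ) (K : Set (E k × E m)) : Prop :=
  ∀ v : E k, δ * (volume.real (shadow K) * volume.real (fibre K v)) ≤ volume.real K

/-- `x₀ + B ⊂ M` for some `x₀`, and `x - y ∈ s B` for all `x, y` in `M` with `x - y ∈ U`, where `M` is the
shadow and `B = {v ∈ U | p v ≤ 1}` -/
def SectionsNear {k m : ℕ} (s : ℝ) (U : Submodule ℝ (E k)) (p : Seminorm ℝ (E k))
    (K : Set (E k × E m)) : Prop :=
  (∃ x₀ : E k, ∀ v ∈ U, p v ≤ 1 → x₀ + v ∈ shadow K) ∧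
    ∀ x ∈ shadow K, ∀ y ∈ shadow K, x - y ∈ U → p (x - y) ≤ s

/-- `p` is a Euclidean norm, `p v = ‖A v‖` with `A` linear and invertible; its unit ball is an ellipsoid -/
def Euclidean {k : ℕ} (p : Seminorm ℝ (E k)) : Prop :=
  ∃ A : E k ≃ₗ[ℝ] E k, ∀ v, p v = ‖A v‖

/-- any `n` vectors `y_i` of `U` with `p(y_i) ≤ 1` have a signed sum with `p(∑ ± y_i) ≤ ρ` -/
def SignedSums {k : ℕ} (n : ℕ) (ρ : ℝ) (U : Submodule ℝ (E k)) (p : Seminorm ℝ (E k)) : Prop :=
  ∀ y : Fin n → E k, (∀ i, y i ∈ U ∧ p (y i) ≤ 1) →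
    ∃ σ : Fin n → ℝ, (∀ i, σ i = 1 ∨ σ i = -1) ∧ p (∑ i, σ i • y i) ≤ ρ

/-- the codimension of `U` -/
def codim {k : ℕ} (U : Submodule ℝ (E k)) : ℝ :=
  k - Module.finrank ℝ U

/-- the bound -/
def bound (k m N : ℕ) : ℝ :=
  1 + 6 * 2 ^ (k + m) * Real.exp (-(k / 10 ^ N)) *
    ((k + m) * Real.log (2 * (k + m) ^ 2 + 2 * (k + m) + 1))

/-- `c(K) ≤ b` for all convex bodies `K` in `ℝ^k × ℝ^m` with the share `δ` of the product of shadow and
fibre, if the sections of the shadow parallel to a subspace `U` of codimension at most `c` are near an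
ellipsoid -/
def EllipsoidCase (k m : ℕ) (s c δ b : ℝ) : Prop :=
  ∀ U : Submodule ℝ (E k), codim U ≤ c → ∀ p : Seminorm ℝ (E k), Euclidean p →
    ∀ K : Set (E k × E m), IsBody K → SectionsNear s U p K → Thick δ K → CovLE K b

/-- `c(K) ≤ b` for all convex bodies `K` in `ℝ^k × ℝ^m` with the share `δ` of the product of shadow and
fibre, if the sections of the shadow parallel to a subspace `U` of codimension at most `c` are near the
unit ball of a norm with small signed sums -/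
def SignedCase (k m n : ℕ) (ρ s c δ b : ℝ) : Prop :=
  ∀ U : Submodule ℝ (E k), codim U ≤ c → ∀ p : Seminorm ℝ (E k), SignedSums n ρ U p →
    ∀ K : Set (E k × E m), IsBody K → SectionsNear s U p K → Thick δ K → CovLE K b

/-- symmetric bodies in `ℝ^k × ℝ^m`: the condition on the sections of the shadow parallel to `U` holds if
`B ⊂ M ∩ U ⊂ (s / 2) B` for the shadow `M` and `B = {v ∈ U | p v ≤ 1}` -/
def CentralSectionSuffices (k m : ℕ) : Prop :=
  ∀ (s : ℝ) (U : Submodule ℝ (E k)) (p : Seminorm ℝ (E k)) (K : Set (E k × E m)),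
    Convex ℝ K → (∀ z ∈ K, -z ∈ K) → (∀ v ∈ U, p v ≤ 1 → v ∈ shadow K) →
      (∀ v ∈ U, v ∈ shadow K → p v ≤ s / 2) → SectionsNear s U p K

open Pool.Agent.U330.COV

lemma signed_of {k n : ℕ} {U : Submodule ℝ (E k)} {ρ : ℝ} {p : Seminorm ℝ (E k)}
    (h : SignedSums n ρ U p) : Signed (Fin n) ρ (p.comp U.subtype) := by
  classical
  intro y hy
  obtain ⟨σ, hs, h1⟩ := h (fun i => (y i : E k)) (fun i => ⟨(y i).2, hy i⟩)
  refine ⟨fun i => decide (σ i = 1), ?_⟩
  have e : ∀ i, sg (decide (σ i = 1)) = σ i := by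
    intro i
    rcases hs i with h2 | h2
    · simp [sg, h2]
    · have : ¬ σ i = 1 := by rw [h2]; norm_num
      simp [sg, h2]
      norm_num
  simp_rw [e]
  have e2 : (p.comp U.subtype) (∑ i, σ i • y i) = p (∑ i, σ i • (y i : E k)) := by
    rw [Seminorm.comp_apply, map_sum]
    simp
  rw [e2]
  exact h1

lemma nat_lt {d k : ℕ} {b : ℝ} (h : (k : ℝ) ≤ b) (hb : b < 2 ^ d) : (k : ℝ) ≤ 2 ^ d - 1 := by
  have h1 : (k : ℝ) < ((2 ^ d : ℕ) : ℝ) := by push_cast; linarith
  have h2 : k + 1 ≤ 2 ^ d := by exact_mod_cast h1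
  have h3 : ((k + 1 : ℕ) : ℝ) ≤ ((2 ^ d : ℕ) : ℝ) := by exact_mod_cast h2
  push_cast at h3
  linarith

lemma cod {k N : ℕ} {U : Submodule ℝ (E k)} (h : codim U ≤ k / 10 ^ N) :
    ((k : ℝ) - Module.finrank ℝ U) * 10 ^ N ≤ k := by
  rwa [le_div_iff₀ (by positivity), codim] at h

/-- the case of ellipsoids -/
lemma ell {k m N : ℕ} {s : ℝ} (hd : 2 ≤ k + m) (hN : 4 ≤ N) (hs : 0 < s) (hNs : 25 * s ^ 2 ≤ N) :
    EllipsoidCase k m s (k / 10 ^ N) (Real.exp (-(k / 3 ^ N))) (bound k m N) := by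
  intro U hU p hp K hK hn ht
  obtain ⟨A, hA⟩ := hp
  obtain ⟨⟨x₀, h1⟩, h2⟩ := hn
  obtain ⟨T, h3, h4⟩ := cover_qs hd hN hs hK.1 hK.2.1 hK.2.2 U (cod hU) p h1 h2
    (fun y hy => by
      have h5 := rad_hilbert' (A : E k →ₗ[ℝ] E k) one_pos (κ := 5 * s / 8) (by positivity)
        (N := N) (by linarith) (p := p) (fun v => by rw [one_mul]; exact hA v) y (fun i => (hy i).2)
      have e : 8 * (5 * s / 8) = 5 * s := by ring
      rwa [e] at h5) ht
  exact ⟨T, h4, h3⟩

/-- the case of the B-convex norms -/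
lemma bconv {n : ℕ} {ρ s : ℝ} (hn : 2 ≤ n) (hρ : ρ < n) (hs : 0 < s) : ∃ N : ℕ,
    ∀ k m : ℕ, 2 ≤ k + m →
      SignedCase k m n ρ s (k / 10 ^ N) (Real.exp (-(k / 3 ^ N))) (bound k m N) := by
  obtain ⟨N, h1, hN⟩ := exists_N4 (ι := Fin n) (ρ := ρ) (κ := 5 * s / 8) (by simpa using hn)
    (by simpa using hρ) (by positivity)
  refine ⟨N, fun k m hd U hU p hp K hK hn' ht => ?_⟩
  obtain ⟨⟨x₀, h2⟩, h3⟩ := hn'
  obtain ⟨T, h4, h5⟩ := cover_qs hd h1 hs hK.1 hK.2.1 hK.2.2 U (cod hU) p h2 h3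
    (fun y hy => by
      have h5 := hN U (p.comp U.subtype) (signed_of hp) (fun i => ⟨y i, (hy i).1⟩)
        (fun i => (hy i).2)
      have e : 8 * (5 * s / 8) = 5 * s := by ring
      rw [e] at h5
      refine le_trans (le_of_eq ?_) h5
      refine Finset.sum_congr rfl fun e _ => ?_
      rw [Seminorm.comp_apply]
      congr 1
      rw [map_sum]
      rfl) ht
  exact ⟨T, h5, h4⟩

lemma mono_thick {k m : ℕ} {δ δ' : ℝ} (h : δ' ≤ δ) {K : Set (E k × E m)} (hK : Thick δ K) :
    Thick δ' K := fun v =>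
  (mul_le_mul_of_nonneg_right h (mul_nonneg measureReal_nonneg measureReal_nonneg)).trans (hK v)

/-- the choice of `C` -/
lemma choice (N : ℕ) {k m : ℕ} (hd : 2 ≤ k + m)
    (hk : 10 * 10 ^ N * Real.log (k + m) ≤ k) {K : Set (E k × E m)}
    (ht : Thick (Real.exp (-(k / (10 * 10 ^ N)))) K)
    (h : Thick (Real.exp (-(k / 3 ^ N))) K → CovLE K (bound k m N)) :
    CovLE K (2 ^ (k + m) - 1) := by
  obtain ⟨T, h1, h2⟩ := h (mono_thick (Real.exp_le_exp.2 (neg_le_neg (by
    refine div_le_div_of_nonneg_left (Nat.cast_nonneg k) (by positivity) ?_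
    calc (3 : ℝ) ^ N ≤ 10 ^ N := pow_le_pow_left₀ (by norm_num) (by norm_num) N
      _ ≤ 10 * 10 ^ N := by
        have : (0 : ℝ) < 10 ^ N := by positivity
        linarith))) ht)
  exact ⟨T, nat_lt h1 (bndT_lt N hd hk), h2⟩

lemma codC {k N : ℕ} {x : ℝ} (h : x ≤ k / (10 * 10 ^ N)) : x ≤ (k : ℝ) / 10 ^ N := by
  refine h.trans (div_le_div_of_nonneg_left (Nat.cast_nonneg k) (by positivity) ?_)
  have : (0 : ℝ) < 10 ^ N := by positivity
  linarith

/-- **Convex bodies which are thick over a shadow with a large section near an ellipsoid or a B-convex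
unit ball.** -/
theorem result :
    -- 1. ellipsoids, explicit bound
    (∀ (k m N : ℕ) (s : ℝ), 2 ≤ k + m → 4 ≤ N → 0 < s → 25 * s ^ 2 ≤ N →
      EllipsoidCase k m s (k / 10 ^ N) (Real.exp (-(k / 3 ^ N))) (bound k m N)) ∧
    -- 2. norms with small signed sums
    (∀ (n : ℕ) (ρ s : ℝ), 2 ≤ n → ρ < n → 0 < s → ∃ N : ℕ, ∀ k m : ℕ, 2 ≤ k + m →
      SignedCase k m n ρ s (k / 10 ^ N) (Real.exp (-(k / 3 ^ N))) (bound k m N)) ∧
    -- 3. less than `2 ^ d` translates if `k ≥ C log d`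
    (∀ s : ℝ, 0 < s → ∃ C : ℝ, 0 < C ∧ ∀ k m : ℕ, 2 ≤ k + m → C * Real.log (k + m) ≤ k →
      EllipsoidCase k m s (k / C) (Real.exp (-(k / C))) (2 ^ (k + m) - 1)) ∧
    (∀ (n : ℕ) (ρ s : ℝ), 2 ≤ n → ρ < n → 0 < s → ∃ C : ℝ, 0 < C ∧
      ∀ k m : ℕ, 2 ≤ k + m → C * Real.log (k + m) ≤ k →
        SignedCase k m n ρ s (k / C) (Real.exp (-(k / C))) (2 ^ (k + m) - 1)) ∧
    -- 4. thickness is automatic if `m` is small
    (∀ C : ℝ, 0 < C → ∃ ε : ℝ, 0 < ε ∧ ∀ k m : ℕ, (m : ℝ) ≤ ε * (k + m) →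
      ∀ K : Set (E k × E m), IsBody K → Thick (Real.exp (-(k / C))) K) ∧
    -- 5. symmetric bodies
    ∀ k m : ℕ, CentralSectionSuffices k m := by
  refine ⟨fun k m N s hd hN hs hNs => ell hd hN hs hNs,
    fun n ρ s hn hρ hs => bconv hn hρ hs, fun s hs => ?_, fun n ρ s hn hρ hs => ?_,
    fun C hC => ?_, fun k m s U p K hK hsym h1 h2 => ?_⟩
  · obtain ⟨N, hN⟩ : ∃ N : ℕ, 25 * s ^ 2 + 4 ≤ N := exists_nat_ge _
    have hN2 : 4 ≤ N := by
      have : (4 : ℝ) ≤ N := by nlinarith [sq_nonneg s]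
      exact_mod_cast this
    exact ⟨10 * 10 ^ N, by positivity, fun k m hd hk U hU p hp K hK hn ht =>
      choice N hd hk ht (ell hd hN2 hs (by linarith) U (codC hU) p hp K hK hn)⟩
  · obtain ⟨N, hN⟩ := bconv hn hρ hs
    exact ⟨10 * 10 ^ N, by positivity, fun k m hd hk U hU p hp K hK hn' ht =>
      choice N hd hk ht (hN k m hd U (codC hU) p hp K hK hn')⟩
  · obtain ⟨ε, hε, h⟩ := thick_auto hC
    exact ⟨ε, hε, fun k m hm K hK => h k m hm K hK.1 hK.2.1⟩
  · refine ⟨⟨0, fun v hv hv1 => by rw [zero_add]; exact h1 v hv hv1⟩, ?_⟩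
    rintro _ ⟨x, hx, rfl⟩ _ ⟨y, hy, rfl⟩ hxy
    have h3 := hK hx (hsym y hy) (show (0 : ℝ) ≤ 1 / 2 by norm_num)
      (show (0 : ℝ) ≤ 1 / 2 by norm_num) (by norm_num)
    have e : ((1 / 2 : ℝ) • x + (1 / 2 : ℝ) • -y).1 = (1 / 2 : ℝ) • (x.1 - y.1) := by
      simp only [Prod.fst_add, Prod.smul_fst, Prod.fst_neg]
      module
    have h4 := h2 ((1 / 2 : ℝ) • (x.1 - y.1)) (U.smul_mem _ hxy) ⟨_, h3, e⟩
    rw [map_smul_eq_mul, Real.norm_of_nonneg (by norm_num)] at h4
    linarith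

end Pool.Agent.Results.MP_eba1ef_gt.QuotientsOfSubspaces

end
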