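import Pool.Agent.U122.Fib
import Pool.Agent.R753.SJ.F
import Pool.Agent.Results.MP_eba1ef_gt.AllConvexBodies

set_option autoImplicit false

/-!
# MP_eba1ef_gt: convex bodies which are smooth along a subspace of logarithmic dimension

Let `K ⊆ ℝ^k × ℝ^m` be a convex body, symmetric or not. We call `K` smooth along `ℝ^m` if the
linear functionals which attain their maximum over `K` at a given point `x` of `K` restrict to
nonnegative multiples of one functional on `ℝ^m`. So the normal cones may have all dimensions up to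
`k + 1`, but their projections to `ℝ^m` are rays (or `0`). Let `B` be the shadow of `K` in `ℝ^k`.

1. `c(K) ≤ (m + 1) c(B)`.
2. Hence `c(K) ≤ 2 ^ (k + m)`, as conjectured, whenever `k ≤ 2` or `5 k (m + 1)² ≤ 2 ^ m`; nothing
   is assumed about the shadow. So in `ℝ^n` it is enough that the body is smooth along one subspace of
   dimension `log₂ n + 2 log₂ log₂ n + O(1)`, or of dimension `n - 2`.
3. If `M` is a smooth convex body in `ℝ^k × ℝ^m` and `C` any convex set in `ℝ^k`, then the
   intersection of `M` with the cylinder `C × ℝ^m` is smooth along `ℝ^m`. So the conjecture is true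
   for the intersections of a smooth convex body in `ℝ^n` with any number of halfspaces whose normals
   lie in a fixed subspace of dimension `2`, or of dimension `n - log₂ n - 2 log₂ log₂ n - O(1)`.
4. If all the fibres of `K` over the points of `B` have smooth Minkowski summands (of full dimension
   `m`, and different ones for different fibres), then `K` is smooth along `ℝ^m`.

Proof of 1. Let `D` be a finite set of `m + 1` vectors of `ℝ^m` such that every functional `q` on
`ℝ^m` satisfies `q v ≤ - κ ‖q‖` for some `v ∈ D`, and let `B` be covered by the sets `b + int B`,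
`b ∈ T`. Let `x = (t, y) ∈ K`, `t ∈ b + int B`. The directions are `(-b, R v)` with a large `R`. Let
`f` be a functional which attains its maximum over `K` at `x`, with the restrictions `p`, `q`. If
`q = 0` then `p` attains its maximum over `B` at `t`, so `p (-b) < 0`. If `q ≠ 0`, let
`(t - b, y') ∈ K`; then `p (-b) ≤ q (y - y')`, which is at most `‖q‖` times the diameter of `K` and is
beaten by `R q v ≤ - R κ ‖q‖`. By the assumption one `v` is good for all `f`. The bound for `c(B)` in
high dimensions is the theorem `AllConvexBodies` of the starting files.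
-/

namespace Pool.Agent.Results.MP_eba1ef_gt.SmoothAlongSubspace

open scoped Pointwise

/-- `ℝ^n`. -/
abbrev E (n : ℕ) := EuclideanSpace ℝ (Fin n)

/-- Convex bodies: compact convex sets with interior points. -/
def IsBody {V : Type*} [NormedAddCommGroup V] [NormedSpace ℝ V] (K : Set V) : Prop :=
  Convex ℝ K ∧ IsCompact K ∧ (interior K).Nonempty

/-- `Covered N K` means that `K` is covered by at most `N` translates of its interior, i.e.
`c(K) ≤ N`. -/
def Covered {V : Type*} [TopologicalSpace V] [Add V] (N : ℕ) (K : Set V) : Prop :=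
  ∃ T : Finset V, T.card ≤ N ∧ K ⊆ ⋃ t ∈ T, (fun x => t + x) '' interior K

/-- `f` attains its maximum over `K` at `x`. -/
def Supports {V : Type*} [NormedAddCommGroup V] [NormedSpace ℝ V]
    (K : Set V) (x : V) (f : V →L[ℝ] ℝ) : Prop := ∀ z ∈ K, f z ≤ f x

/-- `M` is smooth: of two functionals which attain their maximum over `M` at the same point, the
second one not zero, the first one is a nonnegative multiple of the second one. -/
def Smooth {V : Type*} [NormedAddCommGroup V] [NormedSpace ℝ V] (M : Set V) : Prop :=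
  ∀ x ∈ M, ∀ f g : V →L[ℝ] ℝ, Supports M x f → Supports M x g → g ≠ 0 → ∃ c : ℝ, 0 ≤ c ∧ f = c • g

/-- `K ⊆ ℝ^k × ℝ^m` is smooth along `ℝ^m`: if two functionals attain their maximum over `K` at the
same point, and the second one does not vanish on `ℝ^m`, then the restriction of the first one to
`ℝ^m` is a nonnegative multiple of the restriction of the second one. -/
def SmoothAlong {k m : ℕ} (K : Set (E k × E m)) : Prop :=
  ∀ x ∈ K, ∀ f g : E k × E m →L[ℝ] ℝ, Supports K x f → Supports K x g → (∃ y, g (0, y) ≠ 0) →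
    ∃ c : ℝ, 0 ≤ c ∧ ∀ y, f (0, y) = c * g (0, y)

/-- **Bodies smooth along a subspace.** -/
theorem result :
    -- 1., 2. the bounds
    (∀ (k m : ℕ) (K : Set (E k × E m)), IsBody K → SmoothAlong K →
      (∀ N : ℕ, Covered N (Prod.fst '' K) → Covered (N * (m + 1)) K) ∧
      (k ≤ 2 ∨ 5 * k * (m + 1) ^ 2 ≤ 2 ^ m → Covered (2 ^ (k + m)) K)) ∧
    -- 3. smooth bodies intersected with cylinders
    (∀ (k m : ℕ) (M : Set (E k × E m)) (C : Set (E k)), Convex ℝ M → Smooth M → Convex ℝ C →
      (interior (M ∩ Prod.fst ⁻¹' C)).Nonempty → SmoothAlong (M ∩ Prod.fst ⁻¹' C)) ∧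
    -- 4. bodies whose fibres have smooth summands
    (∀ (k m : ℕ) (K : Set (E k × E m)),
      (∀ t ∈ Prod.fst '' K, ∃ S C : Set (E m), Smooth S ∧ {y | (t, y) ∈ K} = S + C) →
      SmoothAlong K) := by
  have conv : ∀ (k m : ℕ) (K : Set (E k × E m)),
      SmoothAlong K ↔ Pool.Agent.U122.Fib.SmoothAlong K := by
    intro k m K
    have e : ∀ (f : E k × E m →L[ℝ] ℝ) (y : E m), f (0, y) = Pool.Agent.U122.Fib.onY f y := by
      intro f y
      rw [Pool.Agent.U122.Fib.split]; simp
    constructor
    · intro h x hx f g hf hg hg0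
      obtain ⟨c, hc, h1⟩ := h x hx f g hf hg (by
        by_contra hcon
        push Not at hcon
        refine hg0 (ContinuousLinearMap.ext fun y => ?_)
        rw [← e, hcon y]; simp)
      refine ⟨c, hc, ContinuousLinearMap.ext fun y => ?_⟩
      rw [← e, h1 y, e]
      simp
    · rintro h x hx f g hf hg ⟨y₀, hy₀⟩
      obtain ⟨c, hc, h1⟩ := h x hx f g hf hg (by
        intro h0
        rw [e, h0] at hy₀
        simp at hy₀)
      refine ⟨c, hc, fun y => ?_⟩
      rw [e, e, h1]
      simp
  refine ⟨fun k m K hK hs => ?_, fun k m M C hM hMs hC hi => ?_, fun k m K h => ?_⟩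
  · obtain ⟨hKc, hKk, hKi⟩ := hK
    have hs' := (conv k m K).1 hs
    have main : ∀ N : ℕ, Covered N (Prod.fst '' K) → Covered (N * (m + 1)) K :=
      fun N hN => Pool.Agent.U122.Fib.smooth_cover hKc hKk hKi hs' hN
    refine ⟨main, fun hcase => ?_⟩
    have hBc : Convex ℝ (Prod.fst '' K) := by
      have := hKc.linear_image (LinearMap.fst ℝ (E k) (E m))
      simpa using this
    have hBk : IsCompact (Prod.fst '' K) := hKk.image continuous_fst
    have hBi : (interior (Prod.fst '' K)).Nonempty := by
      obtain ⟨z, hz⟩ := hKi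
      refine ⟨z.1, ?_⟩
      have ho : IsOpen (Prod.fst '' interior K) := isOpenMap_fst _ isOpen_interior
      exact (interior_maximal (Set.image_mono interior_subset) ho) ⟨z, hz, rfl⟩
    have hm2 : m + 1 ≤ 2 ^ m := Nat.succ_le_of_lt Nat.lt_two_pow_self
    have small : k ≤ 2 → Covered (2 ^ (k + m)) K := by
      intro hk
      obtain ⟨T, hT, hT'⟩ := main (2 ^ k) (Pool.Agent.R753.SJ.cover_le_two (V := E k) (by simp) hk
        hBc hBk hBi)
      refine ⟨T, hT.trans ?_, hT'⟩
      rw [pow_add]
      exact Nat.mul_le_mul_left _ hm2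
    by_cases hk2 : k ≤ 2
    · exact small hk2
    rcases hcase with hk | hk
    · exact small hk
    · push Not at hk2
      obtain ⟨T₀, hT₀, hcard⟩ := AllConvexBodies.result k (by omega) _ hBc hBk hBi
      obtain ⟨T, hT, hT'⟩ := main T₀.card ⟨T₀, le_rfl, hT₀⟩
      refine ⟨T, ?_, hT'⟩
      have hk0 : (0 : ℝ) < k := by
        have : 0 < k := by omega
        exact_mod_cast this
      have hkR : (3 : ℝ) ≤ k := by exact_mod_cast hk2
      have hkm : 5 * (k : ℝ) * (m + 1) ^ 2 ≤ 2 ^ m := by exact_mod_cast hk
      have hm0 : (0 : ℝ) ≤ m := Nat.cast_nonneg m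
      have hlog : Real.log (2 * k ^ 2 + 2 * k + 1) ≤ 2 * (m * Real.log 2) := by
        have h1 : (2 * (k : ℝ) ^ 2 + 2 * k + 1) ≤ (2 ^ m) ^ 2 := by
          have h2 : 2 * (k : ℝ) ≤ 2 ^ m := by nlinarith [sq_nonneg (m : ℝ)]
          have h3 : (2 * (k : ℝ)) ^ 2 ≤ (2 ^ m) ^ 2 := pow_le_pow_left₀ (by positivity) h2 2
          nlinarith
        have h4 := Real.log_le_log (by positivity) h1
        rw [Real.log_pow, Real.log_pow] at h4
        push_cast at h4
        exact h4
      have hl2 : Real.log 2 < 0.6931471808 := Real.log_two_lt_d9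
      have hl0 : 0 < Real.log 2 := Real.log_pos (by norm_num)
      have h1 : (T.card : ℝ) ≤ T₀.card * (m + 1) := by exact_mod_cast hT
      have h2 : (T.card : ℝ) ≤ 2 ^ (k + m) := by
        calc (T.card : ℝ) ≤ T₀.card * (m + 1) := h1
          _ ≤ 3 * 2 ^ k * (k * Real.log (2 * k ^ 2 + 2 * k + 1)) * (m + 1) := by gcongr
          _ ≤ 3 * 2 ^ k * (k * (2 * (m * 0.7))) * (m + 1) := by
              have h5 : Real.log (2 * (k : ℝ) ^ 2 + 2 * k + 1) ≤ 2 * (m * 0.7) := by
                refine hlog.trans ?_
                nlinarith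
              gcongr
          _ ≤ 2 ^ k * (5 * (k : ℝ) * (m + 1) ^ 2) := by
              have h6 : (0 : ℝ) ≤ 2 ^ k * k := by positivity
              nlinarith [mul_nonneg h6 hm0, mul_nonneg h6 (mul_nonneg hm0 hm0)]
          _ ≤ 2 ^ k * 2 ^ m := by gcongr
          _ = 2 ^ (k + m) := by rw [pow_add]
      exact_mod_cast h2
  · rw [conv]
    exact Pool.Agent.U122.Fib.inter_cylinder hM hMs hC hi
  · rw [conv]
    exact Pool.Agent.U122.Fib.smooth_summands h

end Pool.Agent.Results.MP_eba1ef_gt.SmoothAlongSubspace
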